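import Pool.Agent.P8H10.KM.Stm

/-!
# Project KM, part NOR (helper44)
-/

set_option autoImplicit false

open Module

namespace Pool.Agent.P8H44.KM

open Pool.Agent.P8H10.KM

theorem exists_den {K : Type} [Field K] [NumberField K] (S : Finset K) :
    ∃ N : ℕ, 0 < N ∧ ∀ x ∈ S, IsIntegral ℤ ((N : K) * x) := by
  classical
  have : Algebra.IsAlgebraic ℤ K := (IsFractionRing.comap_isAlgebraic_iff (K := ℚ)).2 inferInstance
  obtain ⟨y, hy, h⟩ := Algebra.IsAlgebraic.exists_integral_multiples ℤ S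
  refine ⟨y.natAbs, Int.natAbs_pos.2 hy, fun x hx => ?_⟩
  have h1 := h x hx
  rw [zsmul_eq_mul] at h1
  rcases Int.natAbs_eq y with h2 | h2
  · rw [h2] at h1
    simpa using h1
  · rw [h2] at h1
    have h3 := h1.neg
    simpa using h3

theorem nor_K {K : Type} [Field K] [NumberField K] (s : ℕ) (α : Fin s → K) (hα : ∀ k, α k ≠ 0)
    (B : ℕ) : {γ : K | ∃ q : ℕ, 0 < q ∧ ∃ n : Fin s → ℤ, (∀ k, |n k| ≤ B * q) ∧
      γ ^ q = ∏ k, α k ^ n k}.Finite := by
  classical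
  obtain ⟨N, hN, hint⟩ := exists_den ((Finset.univ.image α) ∪ (Finset.univ.image fun k => (α k)⁻¹))
  have hi1 : ∀ k, IsIntegral ℤ ((N : K) * α k) := fun k => hint _ (by
    rw [Finset.mem_union]; left; exact Finset.mem_image_of_mem _ (Finset.mem_univ k))
  have hi2 : ∀ k, IsIntegral ℤ ((N : K) * (α k)⁻¹) := fun k => hint _ (by
    rw [Finset.mem_union]; right
    exact Finset.mem_image_of_mem (fun k => (α k)⁻¹) (Finset.mem_univ k))
  have hN0 : (N : K) ≠ 0 := Nat.cast_ne_zero.2 hN.ne'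
  have hNi : IsIntegral ℤ (N : K) := isIntegral_natCast N
  -- bound for the embeddings
  obtain ⟨R, hR1, hR⟩ : ∃ R : ℝ, 1 ≤ R ∧ ∀ (φ : K →+* ℂ) k, ‖φ (α k)‖ ≤ R ∧ ‖φ (α k)‖⁻¹ ≤ R := by
    refine ⟨1 + ∑ φ : K →+* ℂ, ∑ k, (‖φ (α k)‖ + ‖φ (α k)‖⁻¹), ?_, ?_⟩
    · have : 0 ≤ ∑ φ : K →+* ℂ, ∑ k, (‖φ (α k)‖ + ‖φ (α k)‖⁻¹) :=
        Finset.sum_nonneg fun φ _ => Finset.sum_nonneg fun k _ => by positivity
      linarith
    · intro φ k
      have h1 : ‖φ (α k)‖ + ‖φ (α k)‖⁻¹ ≤ ∑ k, (‖φ (α k)‖ + ‖φ (α k)‖⁻¹) :=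
        Finset.single_le_sum (f := fun k => ‖φ (α k)‖ + ‖φ (α k)‖⁻¹)
          (fun k _ => by positivity) (Finset.mem_univ k)
      have h2 : ∑ k, (‖φ (α k)‖ + ‖φ (α k)‖⁻¹) ≤
          ∑ φ : K →+* ℂ, ∑ k, (‖φ (α k)‖ + ‖φ (α k)‖⁻¹) :=
        Finset.single_le_sum (f := fun φ : K →+* ℂ => ∑ k, (‖φ (α k)‖ + ‖φ (α k)‖⁻¹))
          (fun φ _ => Finset.sum_nonneg fun k _ => by positivity) (Finset.mem_univ φ)
      have h3 : 0 ≤ ‖φ (α k)‖ := norm_nonneg _
      have h4 : 0 ≤ ‖φ (α k)‖⁻¹ := inv_nonneg.2 h3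
      constructor <;> linarith
  have hfin := NumberField.Embeddings.finite_of_norm_le K ℂ ((N : ℝ) ^ (B * s) * R ^ (s * B))
  refine (hfin.image fun x => x / (N : K) ^ (B * s)).subset ?_
  rintro γ ⟨q, hq, n, hn, hγ⟩
  refine ⟨(N : K) ^ (B * s) * γ, ⟨?_, ?_⟩, ?_⟩
  · apply IsIntegral.of_pow hq
    have e1 : ((N : K) ^ (B * s) * γ) ^ q = ∏ k, ((N : K) ^ (B * q) * α k ^ n k) := by
      rw [mul_pow, hγ, Finset.prod_mul_distrib, Finset.prod_const, Finset.card_univ,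
        Fintype.card_fin]
      congr 1
      rw [← pow_mul, ← pow_mul]
      congr 1
      ring
    rw [e1]
    apply IsIntegral.prod
    intro k _
    have hk := hn k
    obtain ⟨m, hm⟩ : ∃ m : ℕ, (m : ℤ) = |n k| := ⟨(n k).natAbs, by simp⟩
    have hmq : m ≤ B * q := by
      rw [← hm] at hk
      exact_mod_cast hk
    have e2 : (N : K) ^ (B * q) = (N : K) ^ (B * q - m) * (N : K) ^ m := by
      rw [← pow_add, Nat.sub_add_cancel hmq]
    rcases le_total 0 (n k) with h0 | h0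
    · have e3 : n k = m := by rw [hm, abs_of_nonneg h0]
      rw [e2, e3, zpow_natCast, mul_assoc, ← mul_pow]
      exact (hNi.pow _).mul ((hi1 k).pow _)
    · have e3 : n k = -m := by rw [hm, abs_of_nonpos h0, neg_neg]
      rw [e2, e3, zpow_neg, zpow_natCast, ← inv_pow, mul_assoc, ← mul_pow]
      exact (hNi.pow _).mul ((hi2 k).pow _)
  · intro φ
    rw [map_mul, norm_mul, map_pow, norm_pow, map_natCast]
    have e0 : ‖(N : ℂ)‖ = N := Complex.norm_natCast N
    rw [e0]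
    apply mul_le_mul_of_nonneg_left _ (by positivity)
    have h1 : ‖φ γ‖ ^ q ≤ (R ^ (s * B)) ^ q := by
      have e1 : ‖φ γ‖ ^ q = ∏ k, ‖φ (α k)‖ ^ n k := by
        rw [← norm_pow, ← map_pow, hγ, map_prod, norm_prod]
        apply Finset.prod_congr rfl
        intro k _
        rw [map_zpow₀, norm_zpow]
      have e2 : (R ^ (s * B)) ^ q = ∏ _k : Fin s, R ^ (B * q) := by
        rw [Finset.prod_const, Finset.card_univ, Fintype.card_fin, ← pow_mul, ← pow_mul]
        congr 1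
        ring
      rw [e1, e2]
      apply Finset.prod_le_prod
      · intro k _
        positivity
      · intro k _
        have hk := hn k
        obtain ⟨m, hm⟩ : ∃ m : ℕ, (m : ℤ) = |n k| := ⟨(n k).natAbs, by simp⟩
        have hmq : m ≤ B * q := by
          rw [← hm] at hk
          exact_mod_cast hk
        refine le_trans ?_ (pow_le_pow_right₀ hR1 hmq)
        rcases le_total 0 (n k) with h0 | h0
        · have e3 : n k = m := by rw [hm, abs_of_nonneg h0]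
          rw [e3, zpow_natCast]
          exact pow_le_pow_left₀ (norm_nonneg _) (hR φ k).1 _
        · have e3 : n k = -m := by rw [hm, abs_of_nonpos h0, neg_neg]
          rw [e3, zpow_neg, zpow_natCast, ← inv_pow]
          exact pow_le_pow_left₀ (inv_nonneg.2 (norm_nonneg _)) (hR φ k).2 _
    exact le_of_pow_le_pow_left₀ hq.ne' (by positivity) h1
  · simp only
    rw [mul_div_cancel_left₀ _ (pow_ne_zero _ hN0)]

theorem nor : S_NOR := by
  intro Ω _ _ _ _ F _ s α hα B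
  haveI : NumberField F := NumberField.mk
  have h := nor_K (K := F) s (fun k => ⟨α k, (hα k).1⟩) (fun k h => (hα k).2 (by
    have := congrArg (fun x : F => (x : Ω)) h
    exact this)) B
  refine (h.image fun x : F => (x : Ω)).subset ?_
  rintro γ ⟨hγF, q, hq, n, hn, hγ⟩
  refine ⟨⟨γ, hγF⟩, ⟨q, hq, n, hn, ?_⟩, rfl⟩
  apply Subtype.ext
  push_cast
  exact hγ

end Pool.Agent.P8H44.KM
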